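import Pool.Agent.Helper40.Riesz.Coarse
import Pool.Agent.Helper23.Riesz.Defs4

/-!
# Riesz energy on spheres: counting the dyadic cubes that meet the sphere
-/

set_option autoImplicit false
open MeasureTheory Set Filter Topology
open scoped ENNReal NNReal

namespace Helper23.Riesz

namespace CountAux

open CoarseAux

variable {d : ℕ}

/-- the lower corner of a dyadic cell -/
noncomputable def cor (j : ℕ) (q : Fin (d+1) → ℤ) : R (d+1) :=
  WithLp.toLp 2 (fun k => (q k : ℝ) * ((2:ℝ) ^ j)⁻¹)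

lemma cor_apply (j : ℕ) (q : Fin (d+1) → ℤ) (k : Fin (d+1)) :
    cor j q k = (q k : ℝ) * ((2:ℝ) ^ j)⁻¹ := rfl

/-- the index of the dyadic cell of a point -/
noncomputable def Qj (j : ℕ) (x : R (d+1)) : Fin (d+1) → ℤ := fun k => ⌊(2:ℝ) ^ j * x k⌋

lemma mem_cell (j : ℕ) (x : R (d+1)) (q : Fin (d+1) → ℤ) :
    x ∈ cubo (cor j q) ((2:ℝ) ^ j)⁻¹ ↔ Qj j x = q := by
  have h2 : (0:ℝ) < (2:ℝ) ^ j := by positivity
  rw [funext_iff]
  refine forall_congr' fun k => ?_
  rw [Qj, Int.floor_eq_iff, cor_apply, ← add_one_mul, ← div_eq_mul_inv, ← div_eq_mul_inv,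
    div_le_iff₀ h2, lt_div_iff₀ h2, mul_comm (x k)]

lemma dist_le_of_cell {j : ℕ} {x y : R (d+1)} (h : Qj j x = Qj j y) :
    dist x y ≤ (d+1 : ℕ) * ((2:ℝ) ^ j)⁻¹ := by
  rw [dist_eq_norm]
  exact norm_sub_le_of_mem_cube (c := cor j (Qj j y)) (by positivity)
    (cubo_subset_cube _ _ ((mem_cell j x _).2 h)) (cubo_subset_cube _ _ ((mem_cell j y _).2 rfl))

lemma pow_sub_pow_bound {x y : ℝ} (hy : 0 ≤ y) (hxy : y ≤ x) (n : ℕ) :
    x ^ n - y ^ n ≤ n * x ^ (n - 1) * (x - y) := by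
  have hx : 0 ≤ x := hy.trans hxy
  have h := (Commute.all x y).geom_sum₂_mul n
  rw [← h]
  refine mul_le_mul_of_nonneg_right ?_ (sub_nonneg.2 hxy)
  calc ∑ i ∈ Finset.range n, x ^ i * y ^ (n - 1 - i)
      ≤ ∑ i ∈ Finset.range n, x ^ (n - 1) := by
        refine Finset.sum_le_sum fun i hi => ?_
        have hi' : i ≤ n - 1 := by have := Finset.mem_range.1 hi; omega
        calc x ^ i * y ^ (n - 1 - i) ≤ x ^ i * x ^ (n - 1 - i) := by gcongr
          _ = x ^ (n - 1) := by rw [← pow_add]; congr 1; omega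
    _ = n * x ^ (n - 1) := by simp

end CountAux

open CountAux CoarseAux

variable {d : ℕ}

/-- module COUNT: dyadic cubes of `ℝ^{d+1}` of side `2^{-j}` meeting the sphere -/
theorem count_dyadic (hd : 1 ≤ d) : ∃ C : ℝ, 0 < C ∧ ∀ j : ℕ,
    ((Set.range (fun x : S d => fun k : Fin (d+1) => ⌊(2:ℝ) ^ j * (x : E d) k⌋)).ncard : ℝ) ≤
      C * (2:ℝ) ^ (d * j) ∧
    (Set.range (fun x : S d => fun k : Fin (d+1) => ⌊(2:ℝ) ^ j * (x : E d) k⌋)).Finite := by
  set D : ℕ := d + 1 with hD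
  set v : ℝ := (volume : Measure (E d)).real (Metric.ball 0 1) with hv
  have hv0 : 0 ≤ v := measureReal_nonneg
  set C0 : ℝ := D * (1 + D : ℝ) ^ (D - 1) * (2 * D) * v with hC0
  have hC0' : 0 ≤ C0 := by positivity
  refine ⟨C0 + 1, by linarith, fun j => ?_⟩
  set Rg := Set.range (fun x : S d => fun k : Fin (d+1) => ⌊(2:ℝ) ^ j * (x : E d) k⌋) with hRg
  have h2 : (0:ℝ) < (2:ℝ) ^ j := by positivity
  have hnorm : ∀ x : S d, ‖(x : E d)‖ = 1 := fun x => by simp
  have hfin : Rg.Finite := by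
    refine (Set.finite_Icc (fun _ : Fin (d+1) => -(2:ℤ) ^ j) (fun _ => (2:ℤ) ^ j)).subset ?_
    rintro _ ⟨x, rfl⟩
    have hx : ∀ k, |(x : E d) k| ≤ 1 := fun k => by
      have := EuclideanSpace.norm_eq (x : E d)
      have h3 := PiLp.norm_apply_le (x : E d) k
      rw [hnorm x, Real.norm_eq_abs] at h3
      exact h3
    constructor
    · intro k
      change -(2:ℤ) ^ j ≤ ⌊(2:ℝ) ^ j * (x : E d) k⌋
      rw [Int.le_floor]
      push_cast
      nlinarith [abs_le.1 (hx k)]
    · intro k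
      change ⌊(2:ℝ) ^ j * (x : E d) k⌋ ≤ (2:ℤ) ^ j
      have : ((⌊(2:ℝ) ^ j * (x : E d) k⌋ : ℤ) : ℝ) ≤ ((2:ℤ) ^ j : ℤ) := by
        refine (Int.floor_le _).trans ?_
        push_cast
        nlinarith [abs_le.1 (hx k)]
      exact_mod_cast this
  refine ⟨?_, hfin⟩
  set h : ℝ := ((2:ℝ) ^ j)⁻¹ with hh
  have hh0 : 0 < h := by positivity
  have hh1 : h ≤ 1 := inv_le_one_of_one_le₀ (one_le_pow₀ (by norm_num))
  set a : ℝ := 1 + D * h with ha
  set b : ℝ := max 0 (1 - D * h) with hb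
  have hb0 : 0 ≤ b := le_max_left _ _
  have hDh : 0 ≤ D * h := by positivity
  have hba : b ≤ a := max_le (by positivity) (by linarith)
  set F := hfin.toFinset with hF
  have hcard : Rg.ncard = F.card := Set.ncard_eq_toFinset_card _ hfin
  -- the cells lie in an annulus
  have hsub : (⋃ q ∈ F, cubo (cor j q) h) ⊆ (Metric.closedBall (0 : E d) a \ Metric.ball 0 b) := by
    intro y hy
    simp only [mem_iUnion] at hy
    obtain ⟨q, hq, hy⟩ := hy
    rw [hF, Set.Finite.mem_toFinset] at hq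
    obtain ⟨x, hx⟩ := hq
    have e1 : Qj j y = Qj j (x : E d) := by
      rw [(mem_cell j y q).1 hy, ← hx]; rfl
    have e2 := dist_le_of_cell e1
    rw [dist_eq_norm] at e2
    have e3 : ‖y‖ ≤ 1 + D * h := by
      calc ‖y‖ = ‖(y - x) + x‖ := by rw [sub_add_cancel]
        _ ≤ ‖y - x‖ + ‖(x : E d)‖ := norm_add_le _ _
        _ ≤ D * h + 1 := by rw [hnorm x]; linarith
        _ = _ := by ring
    have e4 : 1 - D * h ≤ ‖y‖ := by
      have : ‖(x : E d)‖ ≤ ‖y - x‖ + ‖y‖ := by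
        calc ‖(x : E d)‖ = ‖y - (y - x)‖ := by rw [sub_sub_cancel]
          _ ≤ ‖y‖ + ‖y - x‖ := norm_sub_le _ _
          _ = _ := by ring
      rw [hnorm x] at this
      linarith
    refine ⟨by simpa using e3, ?_⟩
    simp only [Metric.mem_ball, dist_zero_right, not_lt]
    exact max_le (norm_nonneg _) e4
  have hdisj : (F : Set (Fin (d+1) → ℤ)).PairwiseDisjoint (fun q => cubo (cor j q) h) := by
    intro q _ q' _ hqq
    refine Set.disjoint_left.2 fun y h1 h2 => hqq ?_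
    rw [← (mem_cell j y q).1 h1, (mem_cell j y q').1 h2]
  have hvol : (F.card : ℝ) * h ^ D = (volume : Measure (E d)).real (⋃ q ∈ F, cubo (cor j q) h) := by
    rw [measureReal_biUnion_finset hdisj (fun q _ => measurableSet_cubo _ _)
      (fun q _ => by
        rw [volume_cubo]; exact ENNReal.pow_ne_top ENNReal.ofReal_ne_top)]
    rw [Finset.sum_congr rfl (fun q _ => volume_real_cubo (cor j q) hh0.le)]
    simp [hD]
  have hann : (volume : Measure (E d)).real (Metric.closedBall (0 : E d) a \ Metric.ball 0 b) =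
      (a ^ D - b ^ D) * v := by
    rw [measureReal_sdiff (Metric.ball_subset_closedBall.trans (Metric.closedBall_subset_closedBall hba))
      measurableSet_ball (measure_closedBall_lt_top (μ := volume) (x := (0 : E d)) (r := a)).ne]
    rw [Measure.real, Measure.real, Measure.addHaar_closedBall _ _ (hb0.trans hba),
      Measure.addHaar_ball _ _ hb0, finrank_euclideanSpace, Fintype.card_fin,
      ENNReal.toReal_mul, ENNReal.toReal_mul, ENNReal.toReal_ofReal (by positivity),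
      ENNReal.toReal_ofReal (by positivity), hv, Measure.real]
    ring
  have hle : (F.card : ℝ) * h ^ D ≤ (a ^ D - b ^ D) * v := by
    rw [hvol, ← hann]
    refine measureReal_mono hsub ?_
    exact ne_top_of_le_ne_top (measure_closedBall_lt_top (μ := volume) (x := (0 : E d)) (r := a)).ne
      (measure_mono Set.sdiff_subset)
  have hkey : (F.card : ℝ) * h ^ D ≤ C0 * h := by
    refine hle.trans ?_
    have h3 := pow_sub_pow_bound hb0 hba D
    have h4 : a - b ≤ 2 * D * h := by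
      have : 1 - D * h ≤ b := le_max_right _ _
      rw [ha]; linarith
    have h5 : a ≤ 1 + D := by
      have : D * h ≤ D * 1 := by gcongr
      rw [ha]; linarith
    have ha0 : 0 ≤ a := hb0.trans hba
    calc (a ^ D - b ^ D) * v ≤ (D * a ^ (D - 1) * (a - b)) * v := by gcongr
      _ ≤ (D * (1 + D : ℝ) ^ (D - 1) * (2 * D * h)) * v := by gcongr
      _ = C0 * h := by rw [hC0]; ring
  rw [hcard]
  have h6 : h ^ D = h ^ d * h := by rw [hD, pow_succ]
  rw [h6, ← mul_assoc] at hkey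
  have h7 := le_of_mul_le_mul_right hkey hh0
  have h8 : h ^ d * (2:ℝ) ^ (d * j) = 1 := by
    rw [hh, inv_pow, ← pow_mul, mul_comm j d]
    exact inv_mul_cancel₀ (by positivity)
  calc (F.card : ℝ) = F.card * h ^ d * (2:ℝ) ^ (d * j) := by rw [mul_assoc, h8, mul_one]
    _ ≤ C0 * (2:ℝ) ^ (d * j) := by gcongr
    _ ≤ (C0 + 1) * (2:ℝ) ^ (d * j) := by gcongr; linarith

end Helper23.Riesz
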