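import Pool.Agent.Helper42.Riesz.Count

/-!
# Riesz energy on spheres: splitting a measure of integer mass in unit pieces of small diameter
-/

set_option autoImplicit false
open MeasureTheory Set Filter Topology
open scoped ENNReal NNReal

namespace Helper23.Riesz

namespace RoundAux

open CountAux

variable {s : ℝ} {d : ℕ}

/-- the energy of a probability measure concentrated on a set of small diameter -/
lemma Im_le_of_diam (hs0 : s < 0) (p : Measure (S d)) [IsProbabilityMeasure p] {A : Set (S d)}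
    (hA : p Aᶜ = 0) {δ : ℝ} (hdist : ∀ x ∈ A, ∀ y ∈ A, dist x y ≤ δ) :
    Im s p p ≤ δ ^ (-s) := by
  have hae : ∀ᵐ x ∂p, x ∈ A := by rw [ae_iff]; exact hA
  have hin : ∀ x ∈ A, ‖∫ y, (dist x y) ^ (-s) ∂p‖ ≤ δ ^ (-s) := by
    intro x hx
    have := norm_integral_le_of_norm_le_const (μ := p) (f := fun y => (dist x y) ^ (-s))
      (C := δ ^ (-s)) (by
        filter_upwards [hae] with y hy
        rw [Real.norm_of_nonneg (by positivity)]
        exact Real.rpow_le_rpow dist_nonneg (hdist x hx y hy) (by linarith))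
    simpa using this
  have := norm_integral_le_of_norm_le_const (μ := p)
    (f := fun x => ∫ y, (dist x y) ^ (-s) ∂p) (C := δ ^ (-s)) (by
      filter_upwards [hae] with x hx using hin x hx)
  rw [Im]
  refine (le_abs_self _).trans ?_
  simpa using this

/-- the statement proved by induction on the number of levels -/
lemma split (hs0 : s < 0) (N : ℕ → ℝ) (δ : ℕ → ℝ) (hδ : ∀ j, 0 ≤ δ j)
    (f : ℕ → S d → (Fin (d+1) → ℤ)) (hf : ∀ j q, MeasurableSet (f j ⁻¹' {q}))
    (hfin : ∀ j, (range (f j)).Finite) (hN : ∀ j, ((range (f j)).ncard : ℝ) ≤ N j)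
    (hdist : ∀ j x y, f (j+1) x = f (j+1) y → dist x y ≤ δ (j+1)) (h0 : 2 ≤ δ 0) (J : ℕ) :
    ∀ (n : ℕ) (μ : Measure (S d)), μ univ = n → ∃ p : Fin n → Measure (S d),
      (∀ i, IsProbabilityMeasure (p i)) ∧ ∑ i, p i = μ ∧
      ∑ i, Im s (p i) (p i) ≤ n * δ J ^ (-s) + ∑ j ∈ Finset.range J, N (j+1) * δ j ^ (-s) := by
  induction J with
  | zero =>
    intro n μ hμ
    rcases Nat.eq_zero_or_pos n with hn | hn
    · subst hn
      refine ⟨fun i => i.elim0, fun i => i.elim0, ?_, by simp⟩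
      rw [Nat.cast_zero, Measure.measure_univ_eq_zero] at hμ
      simp [hμ]
    have hn0 : (n : ℝ≥0∞) ≠ 0 := by exact_mod_cast hn.ne'
    have hnt : (n : ℝ≥0∞) ≠ ∞ := ENNReal.natCast_ne_top n
    have hp : IsProbabilityMeasure ((n : ℝ≥0∞)⁻¹ • μ) := by
      constructor
      rw [Measure.smul_apply, hμ, smul_eq_mul, ENNReal.inv_mul_cancel hn0 hnt]
    refine ⟨fun _ => (n : ℝ≥0∞)⁻¹ • μ, fun _ => hp, ?_, ?_⟩
    · rw [Finset.sum_const, Finset.card_univ, Fintype.card_fin, ← Nat.cast_smul_eq_nsmul ℝ≥0∞,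
        smul_smul, ENNReal.mul_inv_cancel hn0 hnt, one_smul]
    · have h1 := Im_le_of_diam hs0 ((n : ℝ≥0∞)⁻¹ • μ) (A := univ) (by simp)
        (fun x _ y _ => (dist_le_two x y).trans h0)
      simp only [Finset.range_zero, Finset.sum_empty, add_zero, Finset.sum_const,
        Finset.card_univ, Fintype.card_fin, nsmul_eq_mul]
      gcongr
  | succ J IH =>
    intro n
    induction n with
    | zero =>
      intro μ hμ
      refine ⟨fun i => i.elim0, fun i => i.elim0, ?_, ?_⟩
      · rw [Nat.cast_zero, Measure.measure_univ_eq_zero] at hμ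
        simp [hμ]
      · simp only [Finset.univ_eq_empty, Finset.sum_empty, CharP.cast_eq_zero, zero_mul, zero_add]
        exact Finset.sum_nonneg fun j _ => mul_nonneg ((Nat.cast_nonneg _).trans (hN _))
          (Real.rpow_nonneg (hδ j) _)
    | succ n ih =>
      intro μ hμ
      by_cases hheavy : ∃ q, 1 ≤ μ (f (J+1) ⁻¹' {q})
      · obtain ⟨q, hq⟩ := hheavy
        set A := f (J+1) ⁻¹' {q} with hA
        have hAm : MeasurableSet A := hf _ _
        set x := μ A with hx
        have hx0 : x ≠ 0 := by intro h; rw [h] at hq; simp at hq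
        have hxt : x ≠ ∞ := by
          refine ne_top_of_le_ne_top ?_ (measure_mono (subset_univ A))
          rw [hμ]; exact ENNReal.natCast_ne_top _
        have hxi : x⁻¹ ≤ 1 := ENNReal.inv_le_one.2 hq
        set p0 : Measure (S d) := x⁻¹ • μ.restrict A with hp0
        set μ' : Measure (S d) := μ.restrict Aᶜ + (1 - x⁻¹) • μ.restrict A with hμ'
        have hp0p : IsProbabilityMeasure p0 := by
          constructor
          rw [hp0, Measure.smul_apply, Measure.restrict_apply_univ, smul_eq_mul,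
            ENNReal.inv_mul_cancel hx0 hxt]
        have hsum : p0 + μ' = μ := by
          rw [hp0, hμ', add_comm (μ.restrict Aᶜ), ← add_assoc, ← add_smul,
            add_tsub_cancel_of_le hxi, one_smul]
          exact Measure.restrict_add_restrict_compl hAm
        have hmass : μ' univ = n := by
          have h1 : p0 univ + μ' univ = (n + 1 : ℕ) := by
            rw [← hμ, ← hsum]; rfl
          rw [measure_univ, Nat.cast_add, Nat.cast_one, add_comm (n : ℝ≥0∞)] at h1
          exact (ENNReal.add_right_inj ENNReal.one_ne_top).1 h1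
        obtain ⟨p, hp1, hp2, hp3⟩ := ih μ' hmass
        refine ⟨Fin.cons p0 p, ?_, ?_, ?_⟩
        · intro i
          refine Fin.cases ?_ (fun i => ?_) i
          · exact hp0p
          · exact hp1 i
        · rw [Fin.sum_univ_succ]
          simp only [Fin.cons_zero, Fin.cons_succ]
          rw [hp2, hsum]
        · rw [Fin.sum_univ_succ]
          simp only [Fin.cons_zero, Fin.cons_succ]
          have h2 : Im s p0 p0 ≤ δ (J+1) ^ (-s) := by
            refine Im_le_of_diam hs0 p0 (A := A) ?_ ?_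
            · rw [hp0, Measure.smul_apply, Measure.restrict_apply hAm.compl]
              simp
            · intro y hy z hz
              exact hdist J y z (by rw [show f (J+1) y = q from hy, show f (J+1) z = q from hz])
          push_cast
          linarith
      · push Not at hheavy
        obtain ⟨p, hp1, hp2, hp3⟩ := IH (n+1) μ hμ
        refine ⟨p, hp1, hp2, hp3.trans ?_⟩
        have hcount : ((n + 1 : ℕ) : ℝ) ≤ N (J+1) := by
          refine le_trans ?_ (hN (J+1))
          set F := (hfin (J+1)).toFinset with hF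
          have hcard : (range (f (J+1))).ncard = F.card := Set.ncard_eq_toFinset_card _ _
          rw [hcard]
          have h3 : ((n + 1 : ℕ) : ℝ≥0∞) ≤ F.card := by
            rw [← hμ]
            have h4 : (univ : Set (S d)) ⊆ ⋃ q ∈ F, f (J+1) ⁻¹' {q} := by
              intro x _
              simp only [mem_iUnion]
              exact ⟨f (J+1) x, by rw [hF, Set.Finite.mem_toFinset]; exact mem_range_self x, rfl⟩
            refine (measure_mono h4).trans ((measure_biUnion_finset_le F _).trans ?_)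
            calc ∑ q ∈ F, μ (f (J+1) ⁻¹' {q}) ≤ ∑ q ∈ F, 1 :=
                  Finset.sum_le_sum fun q _ => (hheavy q).le
              _ = F.card := by simp
          exact_mod_cast h3
        rw [Finset.sum_range_succ]
        have h5 : ((n + 1 : ℕ) : ℝ) * δ J ^ (-s) ≤ N (J+1) * δ J ^ (-s) :=
          mul_le_mul_of_nonneg_right hcount (Real.rpow_nonneg (hδ J) _)
        have h6 : 0 ≤ ((n + 1 : ℕ) : ℝ) * δ (J+1) ^ (-s) :=
          mul_nonneg (Nat.cast_nonneg _) (Real.rpow_nonneg (hδ _) _)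
        linarith

lemma numeric {A C0 s : ℝ} {d m : ℕ} (hA : 0 ≤ A) (hC0 : 0 ≤ C0) (hd : 2 ≤ d) (hs : -2 < s)
    (hs0 : s < 0) (hm : 1 ≤ m) :
    (m : ℝ) * (A * ((2:ℝ) ^ s) ^ (Nat.log (2 ^ d) m)) +
      ∑ j ∈ Finset.range (Nat.log (2 ^ d) m), (C0 * (2:ℝ) ^ (d * (j+1))) * (A * ((2:ℝ) ^ s) ^ j) ≤
    (A * (2:ℝ) ^ (-s) + C0 * (2:ℝ) ^ d * A / ((2:ℝ) ^ ((d:ℝ) + s) - 1)) * (m : ℝ) ^ (1 + s / d) := by
  set J := Nat.log (2 ^ d) m with hJ
  have hd0 : (0:ℝ) < d := by positivity
  have hm0 : (0:ℝ) < m := by exact_mod_cast hm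
  have hb : 1 < 2 ^ d := Nat.one_lt_two_pow (by omega)
  have h1 : ((2:ℝ) ^ d) ^ J ≤ m := by exact_mod_cast Nat.pow_log_le_self (2 ^ d) (by omega)
  have h2 : (m : ℝ) < ((2:ℝ) ^ d) ^ (J + 1) := by
    exact_mod_cast Nat.lt_pow_succ_log_self hb m
  have hds : 0 < (d:ℝ) + s := by
    have : (2:ℝ) ≤ d := by exact_mod_cast hd
    linarith
  set r : ℝ := (2:ℝ) ^ ((d:ℝ) + s) with hr
  have hr1 : 1 < r := Real.one_lt_rpow (by norm_num) hds
  set X : ℝ := ((2:ℝ) ^ d) ^ J with hX
  have hX0 : 0 < X := by positivity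
  have e1 : ((2:ℝ) ^ s) ^ J = X ^ (s / d) := by
    rw [hX, ← Real.rpow_natCast, ← Real.rpow_natCast, ← Real.rpow_natCast, ← Real.rpow_mul (by norm_num),
      ← Real.rpow_mul (by norm_num), ← Real.rpow_mul (by norm_num)]
    congr 1
    field_simp
  have e2 : r ^ J = X ^ (1 + s / d) := by
    rw [hX, hr, ← Real.rpow_natCast, ← Real.rpow_natCast, ← Real.rpow_natCast,
      ← Real.rpow_mul (by norm_num), ← Real.rpow_mul (by norm_num), ← Real.rpow_mul (by norm_num)]
    congr 1
    field_simp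
  have hexp : 0 ≤ 1 + s / d := by
    have : 1 + s / d = (d + s) / d := by field_simp
    rw [this]; positivity
  have b1 : (m : ℝ) * (A * ((2:ℝ) ^ s) ^ J) ≤ A * (2:ℝ) ^ (-s) * (m : ℝ) ^ (1 + s / d) := by
    have h3 : X ^ (s / d) ≤ ((m : ℝ) / (2:ℝ) ^ d) ^ (s / d) := by
      refine Real.rpow_le_rpow_of_nonpos (by positivity) ?_ (div_nonpos_of_nonpos_of_nonneg hs0.le hd0.le)
      rw [div_le_iff₀ (by positivity), hX, ← pow_succ]
      exact h2.le
    have h4 : ((m : ℝ) / (2:ℝ) ^ d) ^ (s / d) = (m : ℝ) ^ (s / d) * (2:ℝ) ^ (-s) := by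
      rw [Real.div_rpow hm0.le (by positivity), ← Real.rpow_natCast (2:ℝ) d, ← Real.rpow_mul (by norm_num),
        Real.rpow_neg (by norm_num), div_eq_mul_inv]
      congr 3
      field_simp
    rw [e1, Real.rpow_add hm0, Real.rpow_one]
    calc (m : ℝ) * (A * X ^ (s / d)) ≤ m * (A * ((m : ℝ) ^ (s / d) * (2:ℝ) ^ (-s))) := by
          rw [← h4]; gcongr
      _ = _ := by ring
  have b2 : ∑ j ∈ Finset.range J, (C0 * (2:ℝ) ^ (d * (j+1))) * (A * ((2:ℝ) ^ s) ^ j) ≤
      C0 * (2:ℝ) ^ d * A / (r - 1) * (m : ℝ) ^ (1 + s / d) := by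
    have h5 : ∀ j : ℕ, (C0 * (2:ℝ) ^ (d * (j+1))) * (A * ((2:ℝ) ^ s) ^ j) =
        (C0 * (2:ℝ) ^ d * A) * r ^ j := by
      intro j
      have : r = (2:ℝ) ^ d * (2:ℝ) ^ s := by
        rw [hr, Real.rpow_add (by norm_num), Real.rpow_natCast]
      rw [this, mul_pow, ← pow_mul, mul_add, mul_one, pow_add]
      ring
    simp only [h5]
    rw [← Finset.mul_sum, geom_sum_eq hr1.ne']
    have h6 : (r ^ J - 1) / (r - 1) ≤ (m : ℝ) ^ (1 + s / d) / (r - 1) := by
      have : r ^ J ≤ (m : ℝ) ^ (1 + s / d) := by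
        rw [e2]; exact Real.rpow_le_rpow hX0.le h1 hexp
      have h7 : 0 < r - 1 := by linarith
      gcongr
      linarith
    calc C0 * (2:ℝ) ^ d * A * ((r ^ J - 1) / (r - 1)) ≤
        C0 * (2:ℝ) ^ d * A * ((m : ℝ) ^ (1 + s / d) / (r - 1)) := by gcongr
      _ = _ := by ring
  calc _ ≤ _ := add_le_add b1 b2
    _ = _ := by ring

end RoundAux

open CountAux RoundAux

variable {s : ℝ} {d : ℕ}

/-- module ROUND: splitting a measure of integer mass in unit pieces of small diameter -/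
theorem round_measure (hd : 2 ≤ d) (hs : -2 < s) (hs0 : s < 0) : ∃ C : ℝ, 0 ≤ C ∧
    ∀ (m : ℕ) (μ : Measure (S d)), μ univ = m → ∃ p : Fin m → Measure (S d),
      (∀ i, IsProbabilityMeasure (p i)) ∧ ∑ i, p i = μ ∧
      ∑ i, Im s (p i) (p i) ≤ C * (m : ℝ) ^ (1 + s / d) := by
  obtain ⟨C0, hC0, hcount⟩ := count_dyadic (d := d) (by omega)
  have hds : 0 < (d:ℝ) + s := by
    have : (2:ℝ) ≤ d := by exact_mod_cast hd
    linarith
  have hr1 : 1 < (2:ℝ) ^ ((d:ℝ) + s) := Real.one_lt_rpow (by norm_num) hds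
  have hA0 : (0:ℝ) ≤ ((d+1 : ℕ) : ℝ) ^ (-s) := by positivity
  refine ⟨((d+1 : ℕ) : ℝ) ^ (-s) * (2:ℝ) ^ (-s) +
    C0 * (2:ℝ) ^ d * ((d+1 : ℕ) : ℝ) ^ (-s) / ((2:ℝ) ^ ((d:ℝ) + s) - 1), ?_, ?_⟩
  · have : 0 ≤ (2:ℝ) ^ ((d:ℝ) + s) - 1 := by linarith
    positivity
  intro m μ hμ
  have hmeas : ∀ j, Measurable (fun x : S d => Qj j (x : E d)) := by
    intro j
    refine measurable_pi_lambda _ fun k => ?_
    refine Int.measurable_floor.comp ?_
    have : Measurable fun x : S d => (x : E d) k := by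
      have h1 : Continuous fun x : S d => (x : E d) k :=
        (PiLp.continuous_apply 2 _ k).comp continuous_subtype_val
      exact h1.measurable
    exact this.const_mul _
  let f : ℕ → S d → (Fin (d+1) → ℤ) := fun j x => Qj j (x : E d)
  let N : ℕ → ℝ := fun j => C0 * (2:ℝ) ^ (d * j)
  let δ : ℕ → ℝ := fun j => ((d+1 : ℕ) : ℝ) * ((2:ℝ) ^ j)⁻¹
  have a1 : ∀ j, 0 ≤ δ j := fun j => by positivity
  have a2 : ∀ j q, MeasurableSet (f j ⁻¹' {q}) := fun j q => hmeas j (measurableSet_singleton q)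
  have a3 : ∀ j, (range (f j)).Finite := fun j => (hcount j).2
  have a4 : ∀ j, ((range (f j)).ncard : ℝ) ≤ N j := fun j => (hcount j).1
  have a5 : ∀ j x y, f (j+1) x = f (j+1) y → dist x y ≤ δ (j+1) := fun j x y h =>
    dist_le_of_cell h
  have a6 : 2 ≤ δ 0 := by
    have : (2:ℝ) ≤ d := by exact_mod_cast hd
    change (2:ℝ) ≤ ((d+1 : ℕ) : ℝ) * ((2:ℝ) ^ 0)⁻¹
    push_cast
    rw [pow_zero, inv_one, mul_one]
    linarith
  obtain ⟨p, hp1, hp2, hp3⟩ := split hs0 N δ a1 f a2 a3 a4 a5 a6 (Nat.log (2 ^ d) m) m μ hμ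
  refine ⟨p, hp1, hp2, ?_⟩
  rcases Nat.eq_zero_or_pos m with hm | hm
  · subst hm
    have : (0:ℝ) < 1 + s / d := by
      have h0 : (0:ℝ) < d := by positivity
      have : 1 + s / d = (d + s) / d := by field_simp
      rw [this]; positivity
    simp [Real.zero_rpow this.ne']
  refine hp3.trans ?_
  have hδ : ∀ j : ℕ, δ j ^ (-s) = ((d+1 : ℕ) : ℝ) ^ (-s) * ((2:ℝ) ^ s) ^ j := by
    intro j
    change (((d+1 : ℕ) : ℝ) * ((2:ℝ) ^ j)⁻¹) ^ (-s) = _
    rw [Real.mul_rpow (by positivity) (by positivity), Real.inv_rpow (by positivity),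
      Real.rpow_neg (by positivity : (0:ℝ) ≤ (2:ℝ) ^ j), inv_inv, ← Real.rpow_natCast,
      ← Real.rpow_natCast, ← Real.rpow_mul (by norm_num), ← Real.rpow_mul (by norm_num), mul_comm s]
  simp only [hδ]
  exact numeric hA0 hC0.le hd hs hs0 hm

end Helper23.Riesz
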